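import Mathlib

/-!
Groups in which the product of two elements with trivial cube has trivial sixth power
(project PS of helper848, MP_544bd1_al).  Definitions and the statements of the steps.
-/

universe u

namespace H848.PS

/-- the product of two elements with trivial cube has trivial sixth power -/
def HS (G : Type u) [Group G] : Prop := ∀ a b : G, a ^ 3 = 1 → b ^ 3 = 1 → (a * b) ^ 6 = 1

/-- the presentation facts (proved separately, by kernel-checked coset enumeration) -/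
structure Claims (G : Type u) [Group G] : Prop where
  F1 : ∀ x y : G, x ^ 3 = 1 → y ^ 3 = 1 → (x⁻¹ * ((x * y) ^ 3)⁻¹ * x * (x * y) ^ 3) ^ 2 = 1
  F2 : ∀ d a b : G, d ^ 3 = 1 → a ^ 2 = 1 → b ^ 2 = 1 → (d * a) ^ 3 = 1 → (d * b) ^ 3 = 1 →
    a * b = b * a
  F3 : ∀ y b t : G, y ^ 3 = 1 → b ^ 2 = 1 → (y * b) ^ 3 = 1 → t ^ 3 = 1 → (t * b) ^ 2 = 1 → t = 1

/-- a small presentation fact, for every group (coset enumeration, order 27) -/
def F5 : Prop := ∀ (Q : Type u) [Group Q] (x y : Q), x ^ 3 = 1 → y ^ 3 = 1 →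
  (x * y) ^ 6 = 1 → (x⁻¹ * y) ^ 6 = 1 →
  x * (x * y) ^ 3 = (x * y) ^ 3 * x → y * (x * y) ^ 3 = (x * y) ^ 3 * y →
  x * (x⁻¹ * y) ^ 3 = (x⁻¹ * y) ^ 3 * x → y * (x⁻¹ * y) ^ 3 = (x⁻¹ * y) ^ 3 * y →
  (x * y) ^ 3 = 1

/-- the involutions (and 1) which multiply `x` to an element with trivial cube -/
def E {G : Type u} [Group G] (x : G) : Set G := {e | e ^ 2 = 1 ∧ (x * e) ^ 3 = 1}

/-- the subgroup generated by all `E x`, `x ^ 3 = 1` -/
def Nn (G : Type u) [Group G] : Subgroup G :=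
  Subgroup.closure {e : G | ∃ x : G, x ^ 3 = 1 ∧ e ∈ E x}

/-- A. `E x` is an abelian subgroup -/
def SA : Prop := ∀ (G : Type u) [Group G], Claims G → ∀ x : G, x ^ 3 = 1 →
  ∃ H : Subgroup G, (H : Set G) = E x ∧ ∀ a ∈ H, ∀ b ∈ H, a * b = b * a

/-- B. `N` normalises `E x` -/
def SB : Prop := ∀ (G : Type u) [Group G], HS G → Claims G → ∀ x : G, x ^ 3 = 1 →
  ∀ g ∈ Nn G, ∀ e ∈ E x, g * e * g⁻¹ ∈ E x

/-- C. a group generated by normal elementary abelian 2-subgroups -/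
def SC : Prop := ∀ (G : Type u) [Group G] (EE : Set (Subgroup G)),
  (∀ H ∈ EE, ∀ a ∈ H, a ^ 2 = 1) → (∀ H ∈ EE, ∀ g ∈ sSup EE, ∀ e ∈ H, g * e * g⁻¹ ∈ H) →
  (∀ F : Subgroup G, F.FG → F ≤ sSup EE → Finite F) ∧ ∀ g ∈ sSup EE, ∃ k : ℕ, g ^ 2 ^ k = 1

/-- D. `N` is normal -/
def SD : Prop := ∀ (G : Type u) [Group G], (Nn G).Normal

/-- E'. cubes of products of two elements with trivial cube lie in `N` -/
def SE : Prop := ∀ (G : Type u) [Group G], HS G → Claims G →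
  ∀ x y : G, x ^ 3 = 1 → y ^ 3 = 1 → (x * y) ^ 3 ∈ Nn G

/-- F. cubes of elements of the subgroup generated by the elements with trivial cube lie
in `N` -/
def SF : Prop := ∀ (G : Type u) [Group G], HS G → Claims G →
  ∀ m ∈ Subgroup.closure {t : G | t ^ 3 = 1}, m ^ 3 ∈ Nn G

/-- G. extension lemma -/
def SG : Prop := ∀ (G : Type u) [Group G] (N T : Subgroup G), N.Normal →
  (∀ F : Subgroup G, F.FG → F ≤ N → Finite F) → (∀ m ∈ T, m ^ 3 ∈ N) →
  ∀ F : Subgroup G, F.FG → F ≤ T → Finite F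

/-- H. exponent 12 -/
def SH : Prop := ∀ (G : Type u) [Group G],
  (∀ F : Subgroup G, F.FG → F ≤ Subgroup.closure {t : G | t ^ 3 = 1} → Finite F) →
  ∀ F : Subgroup G, F.FG → (∀ g ∈ F, g ^ 12 = 1) → Finite F

end H848.PS
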