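import Pool.Agent.H848.PS.Defs

/-! Task SA of project PS (helper848): `E x` is an abelian subgroup. -/

universe u

namespace H848.PS

theorem sa : SA.{u} := by
  intro G _ hC x hx
  have comm : ∀ a ∈ E x, ∀ b ∈ E x, a * b = b * a :=
    fun a ha b hb => hC.F2 x a b hx ha.1 hb.1 ha.2 hb.2
  have h3 : x * x * x = 1 := by simpa [pow_succ] using hx
  have hinv : x⁻¹ * x⁻¹ = x := by
    have h : x⁻¹ * x⁻¹ * (x * x * x) = x := by group
    rw [h3, mul_one] at h
    exact h
  have conj : ∀ e ∈ E x, x⁻¹ * e * x ∈ E x := by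
    intro e he
    refine ⟨?_, ?_⟩
    · have h : (x⁻¹ * e * x) ^ 2 = x⁻¹ * e ^ 2 * x := by
        simp only [pow_two]; group
      rw [h, he.1]; group
    · have h : (x * (x⁻¹ * e * x)) ^ 3 = e * (x * e) ^ 3 * e⁻¹ := by
        simp only [pow_succ, pow_zero, one_mul]; group
      rw [h, he.2]; group
  have key : ∀ e : G, (x * e) ^ 3 =
      (x⁻¹ * (x⁻¹ * e * x) * x) * (x⁻¹ * e * x) * e := by
    intro e
    have h : (x⁻¹ * (x⁻¹ * e * x) * x) * (x⁻¹ * e * x) * e =
        (x⁻¹ * x⁻¹) * e * x * e * x * e := by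
      simp only [mul_assoc, mul_inv_cancel_left]
    rw [h, hinv]
    simp only [pow_succ, pow_zero, one_mul, mul_assoc]
  have hone : (1 : G) ∈ E x := ⟨by simp, by simpa using hx⟩
  have hmul : ∀ e ∈ E x, ∀ f ∈ E x, e * f ∈ E x := by
    intro e he f hf
    have he1 := conj e he
    have hf1 := conj f hf
    have he2 := conj _ he1
    have hf2 := conj _ hf1
    refine ⟨?_, ?_⟩
    · have h : (e * f) ^ 2 = e * (f * e) * f := by
        simp only [pow_two, mul_assoc]
      have he' : e * e = 1 := by simpa [pow_two] using he.1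
      have hf' : f * f = 1 := by simpa [pow_two] using hf.1
      rw [h, comm f hf e he]
      calc e * (e * f) * f = (e * e) * (f * f) := by simp only [mul_assoc]
        _ = 1 := by rw [he', hf', one_mul]
    · have ke := key e
      have kf := key f
      have kef := key (e * f)
      have c1 : x⁻¹ * (e * f) * x = (x⁻¹ * e * x) * (x⁻¹ * f * x) := by group
      rw [c1] at kef
      rw [he.2] at ke
      rw [hf.2] at kf
      generalize x⁻¹ * e * x = e1 at *
      generalize x⁻¹ * f * x = f1 at *
      have c2 : x⁻¹ * (e1 * f1) * x = (x⁻¹ * e1 * x) * (x⁻¹ * f1 * x) := by group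
      rw [c2] at kef
      generalize x⁻¹ * e1 * x = e2 at *
      generalize x⁻¹ * f1 * x = f2 at *
      rw [kef]
      have h1 := comm f2 hf2 e1 he1
      have h2 := comm f1 hf1 e he
      have h4 := comm f2 hf2 e he
      calc e2 * f2 * (e1 * f1) * (e * f) = e2 * (f2 * e1) * (f1 * e) * f := by
            simp only [mul_assoc]
        _ = e2 * e1 * (f2 * e) * f1 * f := by rw [h1, h2]; simp only [mul_assoc]
        _ = (e2 * e1 * e) * (f2 * f1 * f) := by rw [h4]; simp only [mul_assoc]
        _ = 1 := by rw [← ke, ← kf, one_mul]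
  have hinvm : ∀ e ∈ E x, e⁻¹ ∈ E x := by
    intro e he
    have he' : e * e = 1 := by simpa [pow_two] using he.1
    have : e⁻¹ = e := inv_eq_of_mul_eq_one_left he'
    rw [this]; exact he
  exact ⟨{ carrier := E x
           mul_mem' := fun {a b} ha hb => hmul a ha b hb
           one_mem' := hone
           inv_mem' := fun {a} ha => hinvm a ha }, rfl, fun a ha b hb => comm a ha b hb⟩

end H848.PS
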