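import Pool.Agent.H848.PS.Defs

universe u

namespace H848.PS

private theorem SB_step {G : Type u} [Group G] (hA : SA.{u}) (hS : HS G) (hC : Claims G) {x : G}
    (hx : x ^ 3 = 1) {y b : G} (hy : y ^ 3 = 1) (hb : b ∈ E y) {e : G} (he : e ∈ E x) :
    b * e * b⁻¹ ∈ E x := by
  obtain ⟨hb2, hyb⟩ := hb
  have hbb : b * b = 1 := by rw [← sq]; exact hb2
  have hbi : b⁻¹ = b := inv_eq_of_mul_eq_one_left hbb
  have hc : (b * x * b) ^ 3 = 1 := by
    have h1 : (b * x * b⁻¹) ^ 3 = 1 := by rw [conj_pow, hx, mul_one, mul_inv_cancel]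
    rwa [hbi] at h1
  have hxi : x⁻¹ ^ 3 = 1 := by rw [inv_pow, hx, inv_one]
  obtain ⟨s, hs⟩ : ∃ s, s = x⁻¹ * (b * x * b) := ⟨_, rfl⟩
  have hs6 : s ^ 6 = 1 := by rw [hs]; exact hS _ _ hxi hc
  have hxs : x * s = b * x * b := by rw [hs, mul_inv_cancel_left]
  have hbsb : b * s * b = s⁻¹ := by
    rw [hs]
    simp only [mul_inv_rev, inv_inv, hbi, mul_assoc, hbb, mul_one]
  have hinv : b * s ^ 2 * b = (s ^ 2)⁻¹ := by
    have h1 : (b * s * b⁻¹) ^ 2 = b * s ^ 2 * b⁻¹ := conj_pow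
    rw [hbi, hbsb] at h1
    rw [← h1, inv_pow]
  have ht : s ^ 2 = 1 := by
    apply hC.F3 y b (s ^ 2) hy hb2 hyb
    · rw [← pow_mul]; exact hs6
    · calc (s ^ 2 * b) ^ 2 = s ^ 2 * (b * s ^ 2 * b) := by rw [sq (s ^ 2 * b)]; simp only [mul_assoc]
        _ = 1 := by rw [hinv, mul_inv_cancel]
  have hsE : s ∈ E x := ⟨ht, by rw [hxs]; exact hc⟩
  obtain ⟨H, hH, hcomm⟩ := hA G hC x hx
  have hse : s * e ∈ E x := by
    rw [← hH] at hsE he ⊢
    exact H.mul_mem hsE he
  rw [hbi]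
  refine ⟨?_, ?_⟩
  · have h1 : (b * e * b⁻¹) ^ 2 = b * e ^ 2 * b⁻¹ := conj_pow
    rw [hbi] at h1
    rw [h1, he.1, mul_one, hbb]
  · have h2 : x * (b * e * b) = b * (x * (s * e)) * b⁻¹ := by
      rw [hbi, ← mul_assoc x s e, hxs]
      calc x * (b * e * b) = (b * b) * x * b * e * b := by rw [hbb, one_mul]; simp only [mul_assoc]
        _ = _ := by simp only [mul_assoc]
    rw [h2, conj_pow, hse.2, mul_one, mul_inv_cancel]

theorem sb (hA : SA.{u}) : SB.{u} := by
  intro G _ hS hC x hx g hg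
  have key : ∀ g ∈ Nn G, ∀ e ∈ E x, g * e * g⁻¹ ∈ E x ∧ g⁻¹ * e * g ∈ E x := by
    intro g hg
    unfold Nn at hg
    induction hg using Subgroup.closure_induction with
    | mem b hb =>
      obtain ⟨y, hy, hb⟩ := hb
      intro e he
      have h1 := SB_step hA hS hC hx hy hb he
      have hbi : b⁻¹ = b := by
        apply inv_eq_of_mul_eq_one_left
        rw [← sq]
        exact hb.1
      refine ⟨h1, ?_⟩
      rw [hbi] at h1 ⊢
      exact h1
    | one =>
      intro e he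
      simpa using he
    | mul g h _ _ ihg ihh =>
      intro e he
      constructor
      · have := (ihg _ (ihh e he).1).1
        simpa [mul_assoc] using this
      · have := (ihh _ (ihg e he).2).2
        simpa [mul_assoc] using this
    | inv g _ ih =>
      intro e he
      have := ih e he
      refine ⟨?_, ?_⟩
      · simpa using this.2
      · simpa using this.1
  intro e he
  exact (key g hg e he).1

end H848.PS
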