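import Pool.Agent.H848.PS.Defs
import Pool.Agent.H15R2.Main

/-!
Project PS: a group generated by normal elementary abelian 2-subgroups is a locally finite
2-group.
-/

universe u

namespace H848.PS

open Subgroup

namespace SCaux

variable {G : Type u} [Group G]

theorem norm_sup {S H : Subgroup G} {g : G} (hS : ∀ s ∈ S, g * s * g⁻¹ ∈ S)
    (hH : ∀ s ∈ H, g * s * g⁻¹ ∈ H) : ∀ k ∈ S ⊔ H, g * k * g⁻¹ ∈ S ⊔ H := by
  have h1 : S ⊔ H ≤ (S ⊔ H).comap (MulAut.conj g).toMonoidHom :=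
    sup_le (fun s hs => (le_sup_left : S ≤ S ⊔ H) (hS s hs))
      (fun s hs => (le_sup_right : H ≤ S ⊔ H) (hH s hs))
  intro k hk
  exact h1 hk

theorem mem_sup_of {S H : Subgroup G} (hS : ∀ h ∈ H, ∀ s ∈ S, h * s * h⁻¹ ∈ S) {g : G}
    (hg : g ∈ S ⊔ H) : ∃ s ∈ S, ∃ h ∈ H, g = s * h := by
  let K : Subgroup G :=
    { carrier := {g | ∃ s ∈ S, ∃ h ∈ H, g = s * h}
      one_mem' := ⟨1, one_mem _, 1, one_mem _, by simp⟩
      mul_mem' := by
        rintro _ _ ⟨s, hs, h, hh, rfl⟩ ⟨s', hs', h', hh', rfl⟩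
        exact ⟨s * (h * s' * h⁻¹), mul_mem hs (hS h hh s' hs'), h * h', mul_mem hh hh', by group⟩
      inv_mem' := by
        rintro _ ⟨s, hs, h, hh, rfl⟩
        refine ⟨h⁻¹ * s⁻¹ * (h⁻¹)⁻¹, hS _ (inv_mem hh) _ (inv_mem hs), h⁻¹, inv_mem hh, by group⟩ }
  have h1 : S ⊔ H ≤ K :=
    sup_le (fun s hs => ⟨s, hs, 1, one_mem _, by simp⟩) (fun h hh => ⟨1, one_mem _, h, hh, by simp⟩)
  exact h1 hg

theorem sq_mem {S H : Subgroup G} (hS : ∀ h ∈ H, ∀ s ∈ S, h * s * h⁻¹ ∈ S)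
    (hH : ∀ a ∈ H, a ^ 2 = 1) {g : G} (hg : g ∈ S ⊔ H) : g ^ 2 ∈ S := by
  obtain ⟨s, hs, h, hh, rfl⟩ := mem_sup_of hS hg
  have h1 : (s * h) ^ 2 = s * (h * s * h⁻¹) * h ^ 2 := by
    rw [pow_two, pow_two]; group
  rw [h1, hH h hh, mul_one]
  exact mul_mem hs (hS h hh s hs)

/-- locally finite 2-group -/
def LF (P : Subgroup G) : Prop :=
  (∀ F : Subgroup G, F.FG → F ≤ P → Finite F) ∧ ∀ g ∈ P, ∃ k : ℕ, g ^ 2 ^ k = 1

theorem step {S H : Subgroup G} (hS : ∀ h ∈ S ⊔ H, ∀ s ∈ S, h * s * h⁻¹ ∈ S)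
    (hH : ∀ a ∈ H, a ^ 2 = 1) (hL : LF S) : LF (S ⊔ H) := by
  have hsq : ∀ g ∈ S ⊔ H, g ^ 2 ∈ S := fun g hg =>
    sq_mem (fun h hh => hS h ((le_sup_right : H ≤ S ⊔ H) hh)) hH hg
  refine ⟨fun F hF hFS => ?_, fun g hg => ?_⟩
  · have hFfg : Group.FG F := (Group.fg_iff_subgroup_fg F).mpr hF
    have hN : (S.subgroupOf F).Normal := by
      refine ⟨fun n hn g => ?_⟩
      rw [mem_subgroupOf] at hn ⊢
      exact hS g.1 (hFS g.2) n.1 hn
    have hQ : Finite (F ⧸ S.subgroupOf F) := by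
      have hfgQ : Group.FG (F ⧸ S.subgroupOf F) := QuotientGroup.fg _
      refine H15.Struct.finite_exp4 hfgQ ?_
      intro q
      obtain ⟨g, rfl⟩ := QuotientGroup.mk_surjective q
      rw [← QuotientGroup.mk_pow, QuotientGroup.eq_one_iff, mem_subgroupOf]
      have h1 : ((g ^ 4 : F) : G) = ((g : G) ^ 2) ^ 2 := by
        rw [← pow_mul]; rfl
      rw [h1]
      exact pow_mem (hsq g.1 (hFS g.2)) 2
    have hfi : (S.subgroupOf F).FiniteIndex := Subgroup.finiteIndex_of_finite_quotient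
    have hidx : (S.subgroupOf F).index ≠ 0 := hfi.index_ne_zero
    have hNfg : (S.subgroupOf F).FG :=
      (Group.fg_iff_subgroup_fg _).mp (Subgroup.fg_of_index_ne_zero _)
    have hM : ((S.subgroupOf F).map F.subtype).FG := by
      classical
      obtain ⟨A, hA⟩ := hNfg
      exact ⟨A.image F.subtype, by rw [Finset.coe_image, ← MonoidHom.map_closure, hA]⟩
    have hMS : (S.subgroupOf F).map F.subtype ≤ S := by
      rintro _ ⟨x, hx, rfl⟩
      exact hx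
    have hfin := hL.1 _ hM hMS
    have hfinN : Finite (S.subgroupOf F) :=
      Finite.of_injective
        (fun x : S.subgroupOf F => (⟨x.1.1, ⟨x.1, x.2, rfl⟩⟩ : (S.subgroupOf F).map F.subtype))
        (fun x y hxy => Subtype.ext (Subtype.ext (congrArg (fun z => z.1) hxy)))
    exact H15.Struct.finite_of_index _ hidx hfinN
  · obtain ⟨k, hk⟩ := hL.2 _ (hsq g hg)
    exact ⟨k + 1, by rw [pow_succ', pow_mul]; exact hk⟩

theorem lf_bot : LF (⊥ : Subgroup G) := by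
  refine ⟨fun F _ hF => ?_, fun g hg => ⟨0, by rw [mem_bot] at hg; simp [hg]⟩⟩
  rw [le_bot_iff] at hF
  rw [hF]
  infer_instance

theorem fin_case (EE : Set (Subgroup G)) (h2 : ∀ H ∈ EE, ∀ a ∈ H, a ^ 2 = 1)
    (hn : ∀ H ∈ EE, ∀ g ∈ sSup EE, ∀ e ∈ H, g * e * g⁻¹ ∈ H) (s : Finset (Subgroup G)) :
    (∀ H ∈ s, H ∈ EE) → LF (s.sup id) ∧ s.sup id ≤ sSup EE ∧
      ∀ g ∈ sSup EE, ∀ e ∈ s.sup id, g * e * g⁻¹ ∈ s.sup id := by
  classical
  induction s using Finset.induction_on with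
  | empty =>
    intro _
    rw [Finset.sup_empty]
    exact ⟨lf_bot, bot_le, fun g _ e he => by rw [mem_bot] at he ⊢; simp [he]⟩
  | insert H s hHs ih =>
    intro h
    obtain ⟨h1, h3, h4⟩ := ih fun K hK => h K (Finset.mem_insert_of_mem hK)
    have hHE := h H (Finset.mem_insert_self _ _)
    have h5 : (insert H s).sup id = s.sup id ⊔ H := by
      rw [Finset.sup_insert, id, sup_comm]
    rw [h5]
    have h6 : s.sup id ⊔ H ≤ sSup EE := sup_le h3 (le_sSup hHE)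
    exact ⟨step (fun g hg => h4 g (h6 hg)) (h2 H hHE) h1, h6,
      fun g hg => norm_sup (h4 g hg) (hn H hHE g hg)⟩

theorem sup_mono' {s t : Finset (Subgroup G)} (h : s ⊆ t) {g : G} (hg : g ∈ s.sup id) :
    g ∈ t.sup id := by
  have h1 : s.sup id ≤ t.sup id := Finset.sup_mono h
  exact h1 hg

theorem exists_fin (EE : Set (Subgroup G)) {g : G} (hg : g ∈ sSup EE) :
    ∃ s : Finset (Subgroup G), (∀ H ∈ s, H ∈ EE) ∧ g ∈ s.sup id := by
  classical
  let U : Subgroup G :=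
    { carrier := {g | ∃ s : Finset (Subgroup G), (∀ H ∈ s, H ∈ EE) ∧ g ∈ s.sup id}
      one_mem' := ⟨∅, by simp, one_mem _⟩
      mul_mem' := by
        rintro a b ⟨s, hs, ha⟩ ⟨t, ht, hb⟩
        refine ⟨s ∪ t, fun H hH => ?_, ?_⟩
        · rcases Finset.mem_union.1 hH with h | h
          · exact hs H h
          · exact ht H h
        · exact mul_mem (sup_mono' Finset.subset_union_left ha) (sup_mono' Finset.subset_union_right hb)
      inv_mem' := by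
        rintro a ⟨s, hs, ha⟩
        exact ⟨s, hs, inv_mem ha⟩ }
  have h1 : sSup EE ≤ U := sSup_le fun H hH g hg => ⟨{H}, by simpa using hH, by simpa using hg⟩
  exact h1 hg

theorem exists_fin' (EE : Set (Subgroup G)) (A : Finset G) (hA : ∀ g ∈ A, g ∈ sSup EE) :
    ∃ s : Finset (Subgroup G), (∀ H ∈ s, H ∈ EE) ∧ ∀ g ∈ A, g ∈ s.sup id := by
  classical
  have h1 : ∀ g : G, ∃ s : Finset (Subgroup G), (∀ H ∈ s, H ∈ EE) ∧ (g ∈ A → g ∈ s.sup id) := by
    intro g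
    by_cases hg : g ∈ A
    · obtain ⟨s, hs, h⟩ := exists_fin EE (hA g hg)
      exact ⟨s, hs, fun _ => h⟩
    · exact ⟨∅, by simp, fun h => absurd h hg⟩
  choose s hs h using h1
  refine ⟨A.biUnion s, fun H hH => ?_, fun g hg => ?_⟩
  · obtain ⟨g, _, hg⟩ := Finset.mem_biUnion.1 hH
    exact hs g H hg
  · exact sup_mono' (Finset.subset_biUnion_of_mem s hg) (h g hg)

end SCaux

theorem sc : SC.{u} := by
  intro G _ EE h2 hn
  refine ⟨fun F hF hFE => ?_, fun g hg => ?_⟩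
  · obtain ⟨A, hA⟩ := hF
    obtain ⟨s, hs, h⟩ := SCaux.exists_fin' EE A fun g hg => hFE (hA ▸ subset_closure hg)
    refine (SCaux.fin_case EE h2 hn s hs).1.1 F ⟨A, hA⟩ ?_
    rw [← hA, closure_le]
    exact h
  · obtain ⟨s, hs, h⟩ := SCaux.exists_fin EE hg
    exact (SCaux.fin_case EE h2 hn s hs).1.2 g h

end H848.PS
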