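import Pool.Agent.H848.PS.Defs

/-! Task SD of project PS (helper848): `N` is normal. -/

universe u

namespace H848.PS

theorem sd : SD.{u} := by
  intro G _
  have hgen : ∀ g : G, ∀ e ∈ {e : G | ∃ x : G, x ^ 3 = 1 ∧ e ∈ E x},
      g * e * g⁻¹ ∈ {e : G | ∃ x : G, x ^ 3 = 1 ∧ e ∈ E x} := by
    rintro g e ⟨x, hx, he⟩
    refine ⟨g * x * g⁻¹, ?_, ?_, ?_⟩
    · rw [conj_pow, hx]; group
    · rw [conj_pow, he.1]; group
    · have h : g * x * g⁻¹ * (g * e * g⁻¹) = g * (x * e) * g⁻¹ := by group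
      rw [h, conj_pow, he.2]; group
  refine ⟨fun n hn g => ?_⟩
  unfold Nn at hn ⊢
  induction hn using Subgroup.closure_induction with
  | mem e he => exact Subgroup.subset_closure (hgen g e he)
  | one => simp
  | mul a b _ _ ha hb =>
    have h : g * (a * b) * g⁻¹ = (g * a * g⁻¹) * (g * b * g⁻¹) := by group
    rw [h]; exact Subgroup.mul_mem _ ha hb
  | inv a _ ha =>
    have h : g * a⁻¹ * g⁻¹ = (g * a * g⁻¹)⁻¹ := by group
    rw [h]; exact Subgroup.inv_mem _ ha

end H848.PS
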