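import Pool.Agent.H848.PS.Defs

universe u

namespace H848.PS

private theorem SE_mem {G : Type u} [Group G] (hC : Claims G) {x y : G} (hx : x ^ 3 = 1)
    (hy : y ^ 3 = 1) : x⁻¹ * ((x * y) ^ 3)⁻¹ * x * (x * y) ^ 3 ∈ Nn G := by
  apply Subgroup.subset_closure
  refine ⟨x, hx, hC.F1 x y hx hy, ?_⟩
  have h1 : x * (x⁻¹ * ((x * y) ^ 3)⁻¹ * x * (x * y) ^ 3) =
      ((x * y) ^ 3)⁻¹ * x * (((x * y) ^ 3)⁻¹)⁻¹ := by
    rw [inv_inv]
    simp only [mul_assoc, mul_inv_cancel_left]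
  rw [h1, conj_pow, hx, mul_one, mul_inv_cancel]

private theorem SE_comm {G Q : Type u} [Group G] [Group Q] (f : G →* Q)
    (hf : ∀ g ∈ Nn G, f g = 1) (hC : Claims G) {x y : G} (hx : x ^ 3 = 1) (hy : y ^ 3 = 1) :
    f x * (f x * f y) ^ 3 = (f x * f y) ^ 3 * f x := by
  have h1 := hf _ (SE_mem hC hx hy)
  simp only [map_mul, map_inv, map_pow] at h1
  generalize f x = a at h1 ⊢
  generalize f y = b at h1 ⊢
  generalize (a * b) ^ 3 = i at h1 ⊢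
  have h2 : a⁻¹ * i⁻¹ * (a * i) = 1 := by rw [← mul_assoc]; exact h1
  have h3 : a * i = (a⁻¹ * i⁻¹)⁻¹ := eq_inv_of_mul_eq_one_right h2
  rw [h3, mul_inv_rev, inv_inv, inv_inv]

private theorem SE_comm2 {G Q : Type u} [Group G] [Group Q] (f : G →* Q)
    (hf : ∀ g ∈ Nn G, f g = 1) (hC : Claims G) {x y : G} (hx : x ^ 3 = 1) (hy : y ^ 3 = 1) :
    f y * (f x * f y) ^ 3 = (f x * f y) ^ 3 * f y := by
  have h1 := SE_comm f hf hC hx hy
  have h2 := SE_comm f hf hC hy hx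
  generalize f x = a at h1 h2 ⊢
  generalize f y = b at h1 h2 ⊢
  have h3 : (b * a) ^ 3 = (a * b) ^ 3 := by
    have h4 : a * (b * a) ^ 3 = (a * b) ^ 3 * a := by
      simp only [pow_succ, pow_zero, one_mul, mul_assoc]
    rw [← h1] at h4
    exact mul_left_cancel h4
  rw [h3] at h2
  exact h2

theorem se (hF5 : F5.{u}) (hD : SD.{u}) : SE.{u} := by
  intro G _ hS hC x y hx hy
  haveI : (Nn G).Normal := hD G
  have hf : ∀ g ∈ Nn G, QuotientGroup.mk' (Nn G) g = 1 := by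
    intro g hg
    exact (QuotientGroup.eq_one_iff g).mpr hg
  have hxi : x⁻¹ ^ 3 = 1 := by rw [inv_pow, hx, inv_one]
  obtain ⟨f, hfd⟩ : ∃ f, f = QuotientGroup.mk' (Nn G) := ⟨_, rfl⟩
  rw [← hfd] at hf
  have c1 := SE_comm f hf hC hx hy
  have c2 := SE_comm2 f hf hC hx hy
  have c3 := SE_comm f hf hC hxi hy
  have c4 := SE_comm2 f hf hC hxi hy
  rw [map_inv] at c3 c4
  have c3' : f x * ((f x)⁻¹ * f y) ^ 3 = ((f x)⁻¹ * f y) ^ 3 * f x := by
    have h1 : Commute (f x)⁻¹ (((f x)⁻¹ * f y) ^ 3) := c3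
    exact (Commute.inv_left_iff.mp h1)
  have h6 : (f x * f y) ^ 6 = 1 := by
    rw [← map_mul, ← map_pow, hS x y hx hy, map_one]
  have h6' : ((f x)⁻¹ * f y) ^ 6 = 1 := by
    rw [← map_inv, ← map_mul, ← map_pow, hS x⁻¹ y hxi hy, map_one]
  have h3x : (f x) ^ 3 = 1 := by rw [← map_pow, hx, map_one]
  have h3y : (f y) ^ 3 = 1 := by rw [← map_pow, hy, map_one]
  have hfin := hF5 _ (f x) (f y) h3x h3y h6 h6' c1 c2 c3' c4
  rw [← map_mul, ← map_pow, hfd] at hfin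
  exact (QuotientGroup.eq_one_iff _).mp hfin

end H848.PS
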