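import Pool.Agent.H848.PS.Defs

set_option autoImplicit false

universe u

namespace H848.PS

theorem sf (hD : SD.{u}) (hE : SE.{u}) : SF.{u} := by
  intro G _ hS hC m hm
  have hN : (Nn G).Normal := hD G
  have key : ∃ t n : G, t ^ 3 = 1 ∧ n ∈ Nn G ∧ m = t * n := by
    induction hm using Subgroup.closure_induction with
    | mem x hx => exact ⟨x, 1, hx, one_mem _, by simp⟩
    | one => exact ⟨1, 1, by simp, one_mem _, by simp⟩
    | mul x y _ _ hx hy =>
      obtain ⟨t, n, ht, hn, rfl⟩ := hx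
      obtain ⟨t', n', ht', hn', rfl⟩ := hy
      refine ⟨(t * t') ^ 4, ((t * t') ^ 3)⁻¹ * (t'⁻¹ * n * t' * n'), ?_, ?_, ?_⟩
      · calc ((t * t') ^ 4) ^ 3 = ((t * t') ^ 6) ^ 2 := by rw [← pow_mul, ← pow_mul]
          _ = 1 := by rw [hS t t' ht ht', one_pow]
      · refine mul_mem (inv_mem (hE G hS hC t t' ht ht')) (mul_mem ?_ hn')
        have := hN.conj_mem n hn t'⁻¹
        simpa using this
      · have h1 : (t * t') ^ 4 * ((t * t') ^ 3)⁻¹ = t * t' := by
          rw [pow_succ' (t * t') 3, mul_inv_cancel_right]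
        rw [← mul_assoc ((t * t') ^ 4), h1]
        group
    | inv x _ hx =>
      obtain ⟨t, n, ht, hn, rfl⟩ := hx
      refine ⟨t⁻¹, t * n⁻¹ * t⁻¹, ?_, hN.conj_mem _ (inv_mem hn) t, ?_⟩
      · rw [inv_pow, ht, inv_one]
      · group
  obtain ⟨t, n, ht, hn, rfl⟩ := key
  rw [← QuotientGroup.eq_one_iff, QuotientGroup.mk_pow, QuotientGroup.mk_mul,
    (QuotientGroup.eq_one_iff n).2 hn, mul_one, ← QuotientGroup.mk_pow, ht, QuotientGroup.mk_one]

end H848.PS
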