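import Pool.Agent.H848.PS.Defs
import Pool.Agent.H15R2.Main

/-! Task SG (helper913): extension lemma, exponent 3. -/

universe u

namespace H848.PS

theorem sg : SG.{u} := by
  intro G _ N T hN hfin hT F hF hFT
  have hFfg : Group.FG F := (Group.fg_iff_subgroup_fg F).mpr hF
  have hKn : (N.subgroupOf F).Normal := hN.subgroupOf F
  have hQ : Finite (F ⧸ N.subgroupOf F) := by
    have hfgQ : Group.FG (F ⧸ N.subgroupOf F) := QuotientGroup.fg (N.subgroupOf F)
    refine H15.Struct.finite_exp3 hfgQ ?_
    intro q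
    obtain ⟨f, rfl⟩ := QuotientGroup.mk_surjective q
    rw [← QuotientGroup.mk_pow, QuotientGroup.eq_one_iff]
    show (f ^ 3 : F).1 ∈ N
    exact hT f.1 (hFT f.2)
  have hfi : (N.subgroupOf F).FiniteIndex := Subgroup.finiteIndex_of_finite_quotient
  have hidx : (N.subgroupOf F).index ≠ 0 := hfi.index_ne_zero
  have hKfg : (N.subgroupOf F).FG :=
    (Group.fg_iff_subgroup_fg _).mp (Subgroup.fg_of_index_ne_zero _)
  have hMfg : ((N.subgroupOf F).map F.subtype).FG := by
    classical
    obtain ⟨S, hS⟩ := hKfg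
    refine ⟨S.image F.subtype, ?_⟩
    rw [Finset.coe_image, ← MonoidHom.map_closure, hS]
  have hMle : (N.subgroupOf F).map F.subtype ≤ N := by
    rintro _ ⟨f, hf, rfl⟩
    exact hf
  have hMfin : Finite ((N.subgroupOf F).map F.subtype) := hfin _ hMfg hMle
  have hKfin : Finite (N.subgroupOf F) :=
    Finite.of_injective
      (fun k : N.subgroupOf F => (⟨F.subtype k.1, ⟨k.1, k.2, rfl⟩⟩ : (N.subgroupOf F).map F.subtype))
      (by
        intro a b hab
        have := congrArg Subtype.val hab
        exact Subtype.ext (Subtype.ext this))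
  exact H15.Struct.finite_of_index _ hidx hKfin

end H848.PS
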