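import Pool.Agent.H848.PS.Cert
import Pool.Agent.H848.PS.SA
import Pool.Agent.H848.PS.SB
import Pool.Agent.H848.PS.SC
import Pool.Agent.H848.PS.SD
import Pool.Agent.H848.PS.SE
import Pool.Agent.H848.PS.SF
import Pool.Agent.H848.PS.SG
import Pool.Agent.H848.PS.SHm
import Pool.Agent.H15R2.Main

/-!
Assembly: groups in which the product of two elements with trivial cube has trivial sixth
power.
-/

universe u

namespace H848.PS

variable {G : Type u} [Group G]

/-- the family of subgroups `E x` -/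
def EE (G : Type u) [Group G] : Set (Subgroup G) :=
  {H | ∃ x : G, x ^ 3 = 1 ∧ (H : Set G) = E x}

theorem Nn_eq (H : HS G) : Nn G = sSup (EE G) := by
  apply le_antisymm
  · unfold Nn
    rw [Subgroup.closure_le]
    rintro e ⟨x, hx, he⟩
    obtain ⟨K, hK, _⟩ := sa G (claims H) x hx
    have h1 : K ≤ sSup (EE G) := le_sSup ⟨x, hx, hK⟩
    exact h1 (by rw [← SetLike.mem_coe, hK]; exact he)
  · apply sSup_le
    rintro K ⟨x, hx, hK⟩ e he
    apply Subgroup.subset_closure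
    exact ⟨x, hx, by rw [← hK]; exact he⟩

theorem Nn_props (H : HS G) :
    (∀ F : Subgroup G, F.FG → F ≤ Nn G → Finite F) ∧ ∀ g ∈ Nn G, ∃ k : ℕ, g ^ 2 ^ k = 1 := by
  have h := sc G (EE G) ?_ ?_
  · rw [Nn_eq H]; exact h
  · rintro K ⟨x, hx, hK⟩ a ha
    have : a ∈ E x := by rw [← hK]; exact ha
    exact this.1
  · rintro K ⟨x, hx, hK⟩ g hg e he
    rw [← Nn_eq H] at hg
    have h1 : e ∈ E x := by rw [← hK]; exact he
    have h2 := sb sa G H (claims H) x hx g hg e h1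
    rw [← SetLike.mem_coe, hK]; exact h2

theorem Nn_le (H : HS G) : Nn G ≤ Subgroup.closure {t : G | t ^ 3 = 1} := by
  unfold Nn
  rw [Subgroup.closure_le]
  rintro e ⟨x, hx, he⟩
  have h1 : x ∈ Subgroup.closure {t : G | t ^ 3 = 1} := Subgroup.subset_closure hx
  have h2 : x * e ∈ Subgroup.closure {t : G | t ^ 3 = 1} := Subgroup.subset_closure he.2
  have h3 := mul_mem (inv_mem h1) h2
  rw [inv_mul_cancel_left] at h3
  exact h3

theorem T_lf (H : HS G) :
    ∀ F : Subgroup G, F.FG → F ≤ Subgroup.closure {t : G | t ^ 3 = 1} → Finite F :=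
  sg G (Nn G) _ (sd G) (Nn_props H).1 (sf sd (se f5 sd) G H (claims H))

/-- groups of exponent 4 (Sanov) -/
theorem lf4 (K : Type u) [Group K] (hK : Group.FG K) (h : ∀ g : K, g ^ 4 = 1) : Finite K :=
  H15.Struct.finite_exp4 hK h

/-- groups of exponent 6 (M. Hall), here a special case -/
theorem lf6 (K : Type u) [Group K] (hK : Group.FG K) (h : ∀ g : K, g ^ 6 = 1) : Finite K := by
  have H : HS K := fun a b _ _ => h (a * b)
  have h1 : (⊤ : Subgroup K).FG := Group.fg_def.mp hK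
  have h2 := shm K (T_lf H) 4 lf4 ⊤ h1 (fun g _ => by
    have : g ^ (4 * 3) = (g ^ 6) ^ 2 := by rw [← pow_mul]
    rw [this, h g, one_pow])
  exact Finite.of_equiv _ (Subgroup.topEquiv (G := K)).toEquiv

/-- the whole structure theorem -/
theorem main (H : HS G) :
    (∃ N : Subgroup G, N.Normal ∧ N ≤ Subgroup.closure {t : G | t ^ 3 = 1} ∧
      (∀ F : Subgroup G, F.FG → F ≤ N → Finite F) ∧ (∀ g ∈ N, ∃ k : ℕ, g ^ 2 ^ k = 1) ∧
      ∀ m ∈ Subgroup.closure {t : G | t ^ 3 = 1}, m ^ 3 ∈ N) ∧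
    (∀ F : Subgroup G, F.FG → F ≤ Subgroup.closure {t : G | t ^ 3 = 1} → Finite F) ∧
    (∀ F : Subgroup G, F.FG → (∀ g ∈ F, g ^ 12 = 1) → Finite F) ∧
    (∀ F : Subgroup G, F.FG → (∀ g ∈ F, g ^ 18 = 1) → Finite F) ∧
    ∀ m : ℕ, (∀ (K : Type u) [Group K], Group.FG K → (∀ g : K, g ^ m = 1) → Finite K) →
      ∀ F : Subgroup G, F.FG → (∀ g ∈ F, g ^ (3 * m) = 1) → Finite F := by
  have hm : ∀ m ∈ Subgroup.closure {t : G | t ^ 3 = 1}, m ^ 3 ∈ Nn G :=
    sf sd (se f5 sd) G H (claims H)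
  refine ⟨⟨Nn G, sd G, Nn_le H, (Nn_props H).1, (Nn_props H).2, hm⟩, T_lf H, ?_, ?_, ?_⟩
  · intro F hF h
    exact shm G (T_lf H) 4 lf4 F hF h
  · intro F hF h
    exact shm G (T_lf H) 6 lf6 F hF h
  · intro m hm F hF h
    exact shm G (T_lf H) m hm F hF (fun g hg => by rw [mul_comm]; exact h g hg)

end H848.PS
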