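import Pool.Agent.H15R2.TC3

/-!
Normal forms in free products of groups of order 2 and 3, and relators from facts.
-/

namespace H848.PS

open H15.TC

/-- normalise a letter: the inverse of an involution is the involution -/
noncomputable def nl (I : List Bool) (g : ℕ) : ℕ :=
  cond (I.getD (Nat.div g (nat_lit 2)) false) (Nat.mul (nat_lit 2) (Nat.div g (nat_lit 2))) g

/-- push a letter, reducing `g g⁻¹ = 1`, `g g = g⁻¹` (order 3) and `g g = 1` (order 2) -/
noncomputable def pushO (I : List Bool) (g : ℕ) (l : List ℕ) : List ℕ :=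
  List.rec (motive := fun _ => ℕ → List ℕ) (fun g => [g])
    (fun h t ih g => cond (Nat.beq h (inv g)) t (cond (Nat.beq h g)
      (cond (I.getD (Nat.div g (nat_lit 2)) false) t (ih (inv g))) (g :: h :: t))) l g

/-- reduction -/
noncomputable def redO (I : List Bool) (l : List ℕ) : List ℕ :=
  List.rec (motive := fun _ => List ℕ) [] (fun g _ ih => pushO I (nl I g) ih) l

/-- power of a word -/
def pwr (w : List ℕ) : ℕ → List ℕ
  | 0 => []
  | n + 1 => w ++ pwr w n

section

variable {G : Type*} [Group G] {gen : ℕ → G} {I : List Bool}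

/-- the generators have order 2 or 3 as prescribed -/
def Ord (I : List Bool) (gen : ℕ → G) : Prop :=
  ∀ i, (I.getD i false = true → gen i ^ 2 = 1) ∧ (I.getD i false = false → gen i ^ 3 = 1)

theorem lv_two (h : Ord I gen) {g : ℕ} (hg : I.getD (Nat.div g 2) false = true) :
    lv gen g ^ 2 = 1 := by
  have h1 := (h (g / 2)).1 hg
  unfold lv
  split
  · exact h1
  · rw [inv_pow, h1, inv_one]

theorem lv_three (h : Ord I gen) {g : ℕ} (hg : I.getD (Nat.div g 2) false = false) :
    lv gen g ^ 3 = 1 := by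
  have h1 := (h (g / 2)).2 hg
  unfold lv
  split
  · exact h1
  · rw [inv_pow, h1, inv_one]

theorem lv_nl (h : Ord I gen) (g : ℕ) : lv gen (nl I g) = lv gen g := by
  unfold nl
  cases hg : I.getD (Nat.div g 2) false with
  | false => rfl
  | true =>
    rw [cond_true]
    have h1 := (h (g / 2)).1 hg
    have e : Nat.mul 2 (Nat.div g 2) = 2 * (g / 2) := rfl
    rw [e]
    unfold lv
    have h2 : 2 * (g / 2) % 2 = 0 := by omega
    have h3 : 2 * (g / 2) / 2 = g / 2 := by omega
    rw [if_pos h2, h3]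
    split
    · rfl
    · rw [eq_inv_iff_mul_eq_one, ← pow_two]; exact h1

theorem ev_pushO (h : Ord I gen) (l : List ℕ) :
    ∀ g, ev gen (pushO I g l) = lv gen g * ev gen l := by
  induction l with
  | nil =>
    intro g
    show ev gen [g] = _
    rw [ev_cons]
  | cons k t ih =>
    intro g
    show ev gen (cond (Nat.beq k (inv g)) t (cond (Nat.beq k g)
      (cond (I.getD (Nat.div g (nat_lit 2)) false) t (pushO I (inv g) t)) (g :: k :: t))) = _
    cases h1 : Nat.beq k (inv g) with
    | true =>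
      have := Nat.eq_of_beq_eq_true h1
      rw [cond_true, this, ev_cons, lv_inv, mul_inv_cancel_left]
    | false =>
      cases h2 : Nat.beq k g with
      | true =>
        have hk := Nat.eq_of_beq_eq_true h2
        rw [cond_false, cond_true]
        cases h3 : I.getD (Nat.div g 2) false with
        | true =>
          rw [cond_true, hk, ev_cons, ← mul_assoc, ← pow_two, lv_two h h3, one_mul]
        | false =>
          rw [cond_false, ih, hk, ev_cons, lv_inv]
          have h4 := lv_three h h3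
          have h5 : (lv gen g)⁻¹ = lv gen g * lv gen g := by
            rw [inv_eq_iff_mul_eq_one, ← pow_three]; exact h4
          rw [h5, mul_assoc]
      | false => rw [cond_false, cond_false, ev_cons]

theorem ev_redO (h : Ord I gen) (l : List ℕ) : ev gen (redO I l) = ev gen l := by
  induction l with
  | nil => rfl
  | cons g l ih =>
    show ev gen (pushO I (nl I g) (redO I l)) = _
    rw [ev_pushO h, ih, ev_cons, lv_nl h]

theorem ev_pwr (w : List ℕ) (n : ℕ) : ev gen (pwr w n) = ev gen w ^ n := by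
  induction n with
  | zero => simp [pwr]
  | succ n ih => rw [pwr, ev_append, ih, pow_succ']

/-- two words with the same normal form have the same value -/
theorem ev_eq (h : Ord I gen) {v w : List ℕ} (e : redO I v = redO I w) : ev gen v = ev gen w := by
  rw [← ev_redO h v, e, ev_redO h w]

theorem conj_cube {c d : G} (hd : d ^ 3 = 1) : (c⁻¹ * d * c) ^ 3 = 1 := by
  have : (c⁻¹ * d * c) ^ 3 = c⁻¹ * d ^ 3 * c := by simp [pow_succ, mul_assoc]
  rw [this, hd]; simp

/-- relators from the product of two elements with trivial cube -/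
theorem rel_six (h : Ord I gen) (H : ∀ a b : G, a ^ 3 = 1 → b ^ 3 = 1 → (a * b) ^ 6 = 1)
    {r : List ℕ} (p a q b : List ℕ) (ha : ev gen a ^ 3 = 1) (hb : ev gen b ^ 3 = 1)
    (e : redO I r = redO I (pwr (irev p ++ a ++ p ++ (irev q ++ b ++ q)) 6)) : ev gen r = 1 := by
  rw [ev_eq h e, ev_pwr]
  simp only [ev_append, ev_irev]
  exact H _ _ (conj_cube ha) (conj_cube hb)

/-- relators from a word with value 1, conjugated -/
theorem rel_conj (h : Ord I gen) {r : List ℕ} (c w : List ℕ) (hw : ev gen w = 1)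
    (e : redO I r = redO I (irev c ++ w ++ c)) : ev gen r = 1 := by
  rw [ev_eq h e]
  simp only [ev_append, ev_irev, hw, mul_one, inv_mul_cancel]

end

end H848.PS

namespace H848.PS

open H15.TC

section

variable {G : Type*} [Group G] {gen : ℕ → G} {I : List Bool}

/-- the commutator word of `u` and `u^v` -/
noncomputable def cw (u v : List ℕ) : List ℕ :=
  irev u ++ (irev v ++ irev u ++ v) ++ u ++ (irev v ++ u ++ v)

theorem ev_cw (u v : List ℕ) : ev gen (cw u v) =
    (ev gen u)⁻¹ * ((ev gen v)⁻¹ * (ev gen u)⁻¹ * ev gen v) * ev gen u *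
      ((ev gen v)⁻¹ * ev gen u * ev gen v) := by
  simp only [cw, ev_append, ev_irev]

theorem rel_W (h : Ord I gen)
    (HW : ∀ u v : G, u ^ 3 = 1 → v ^ 3 = 1 →
      (u⁻¹ * (v⁻¹ * u⁻¹ * v) * u * (v⁻¹ * u * v)) ^ 2 = 1)
    {r : List ℕ} (c u v : List ℕ) (hu : ev gen u ^ 3 = 1) (hv : ev gen v ^ 3 = 1)
    (e : redO I r = redO I (irev c ++ pwr (cw u v) 2 ++ c)) : ev gen r = 1 := by
  refine rel_conj h c (pwr (cw u v) 2) ?_ e
  rw [ev_pwr, ev_cw]
  exact HW _ _ hu hv

theorem rel_C (h : Ord I gen)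
    (HC : ∀ u v b : G, u ^ 3 = 1 → v ^ 3 = 1 → b ^ 2 = 1 → (u * b) ^ 3 = 1 →
      b * (u⁻¹ * (v⁻¹ * u⁻¹ * v) * u * (v⁻¹ * u * v)) =
        (u⁻¹ * (v⁻¹ * u⁻¹ * v) * u * (v⁻¹ * u * v)) * b)
    {r : List ℕ} (c u v b : List ℕ) (hu : ev gen u ^ 3 = 1) (hv : ev gen v ^ 3 = 1)
    (hb : ev gen b ^ 2 = 1) (hub : (ev gen u * ev gen b) ^ 3 = 1)
    (e : redO I r = redO I (irev c ++ (irev b ++ irev (cw u v) ++ b ++ cw u v) ++ c)) :
    ev gen r = 1 := by
  refine rel_conj h c _ ?_ e
  simp only [ev_append, ev_irev, ev_cw]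
  have h1 := HC _ _ _ hu hv hb hub
  generalize (ev gen u)⁻¹ * ((ev gen v)⁻¹ * (ev gen u)⁻¹ * ev gen v) * ev gen u *
    ((ev gen v)⁻¹ * ev gen u * ev gen v) = s at *
  rw [mul_assoc, h1]; group

theorem rel_pow {r : List ℕ} (w : List ℕ) (n : ℕ) (hw : ev gen w ^ n = 1) (e : r = pwr w n) :
    ev gen r = 1 := by
  rw [e, ev_pwr, hw]

/-- three generators -/
def g3 (x y z : G) : ℕ → G
  | 0 => x
  | 1 => y
  | 2 => z
  | _ => 1

theorem l0 (x y z : G) : lv (g3 x y z) 0 = x := by simp [lv, g3]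
theorem l1 (x y z : G) : lv (g3 x y z) 1 = x⁻¹ := by simp [lv, g3]
theorem l2 (x y z : G) : lv (g3 x y z) 2 = y := by simp [lv, g3]
theorem l3 (x y z : G) : lv (g3 x y z) 3 = y⁻¹ := by simp [lv, g3]
theorem l4 (x y z : G) : lv (g3 x y z) 4 = z := by simp [lv, g3]
theorem l5 (x y z : G) : lv (g3 x y z) 5 = z⁻¹ := by simp [lv, g3]

theorem inv3 {a : G} {n : ℕ} (h : a ^ n = 1) : a⁻¹ ^ n = 1 := by rw [inv_pow, h, inv_one]

theorem comm3 {a b : G} {n : ℕ} (h : (a * b) ^ n = 1) : (b * a) ^ n = 1 := by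
  have h1 : b * a = b * (a * b) * b⁻¹ := by group
  rw [h1, conj_pow, h]; simp

end

end H848.PS
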