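import Pool.Agent.H848.PS.Defs
import Pool.Agent.H15R2.Main

universe u

namespace H848.PS

open Subgroup

theorem sh : SH.{u} := by
  intro G _ hT F hF h12
  set T : Subgroup G := closure {t : G | t ^ 3 = 1} with hTdef
  have hTn : T.Normal := by
    refine ⟨fun n hn g => ?_⟩
    induction hn using closure_induction with
    | mem t ht =>
      refine subset_closure ?_
      have ht' : t ^ 3 = 1 := ht
      show (g * t * g⁻¹) ^ 3 = 1
      rw [conj_pow, ht']; simp
    | one => simp [one_mem]
    | mul a b _ _ ha hb =>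
      have : g * (a * b) * g⁻¹ = (g * a * g⁻¹) * (g * b * g⁻¹) := by group
      rw [this]; exact mul_mem ha hb
    | inv a _ ha =>
      have : g * a⁻¹ * g⁻¹ = (g * a * g⁻¹)⁻¹ := by group
      rw [this]; exact inv_mem ha
  have hFfg : Group.FG F := (Group.fg_iff_subgroup_fg F).mpr hF
  have hQ : Finite (F ⧸ T.subgroupOf F) := by
    have hfgQ : Group.FG (F ⧸ T.subgroupOf F) := QuotientGroup.fg (T.subgroupOf F)
    refine H15.Struct.finite_exp4 hfgQ ?_
    intro q
    obtain ⟨g, rfl⟩ := QuotientGroup.mk_surjective q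
    rw [← QuotientGroup.mk_pow, QuotientGroup.eq_one_iff]
    show (g.1 ^ 4 : G) ∈ T
    refine subset_closure ?_
    show (g.1 ^ 4) ^ 3 = 1
    rw [← pow_mul]; exact h12 g.1 g.2
  have hfi : (T.subgroupOf F).FiniteIndex := Subgroup.finiteIndex_of_finite_quotient
  have hidx : (T.subgroupOf F).index ≠ 0 := hfi.index_ne_zero
  have hSfg : Group.FG (T.subgroupOf F) := Subgroup.fg_of_index_ne_zero _
  have hSfg' : (T.subgroupOf F).FG := (Group.fg_iff_subgroup_fg _).mp hSfg
  have hmap : ((T.subgroupOf F).map F.subtype).FG := by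
    classical
    obtain ⟨S, hS⟩ := hSfg'
    refine ⟨S.image F.subtype, ?_⟩
    rw [← hS, MonoidHom.map_closure, Finset.coe_image]
  have hle : (T.subgroupOf F).map F.subtype ≤ T := by
    rintro _ ⟨x, hx, rfl⟩
    exact hx
  have hfinmap := hT _ hmap hle
  have hfin : Finite (T.subgroupOf F) := by
    refine Finite.of_injective
      (fun x : T.subgroupOf F => (⟨x.1.1, ⟨x.1, x.2, rfl⟩⟩ : (T.subgroupOf F).map F.subtype)) ?_
    intro x y hxy
    have h1 : x.1.1 = y.1.1 := by
      have := congrArg Subtype.val hxy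
      exact this
    exact Subtype.ext (Subtype.ext h1)
  exact H15.Struct.finite_of_index _ hidx hfin

end H848.PS
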